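import Pool.Agent.H14.ENR.Stmts4

/-!
Row ORB of board enr (MP_d15c96_al): a permutation of `2`-power order of a set whose size is not
divisible by four has an orbit of size at most two.
-/

set_option autoImplicit false

namespace Pool.ENR

open Equiv.Perm in
theorem orb_thm : ORBStmt := by
  classical
  intro X _ σ N hσ h4
  have := Fintype.ofFinite X
  by_contra h
  push Not at h
  apply h4
  have hs : σ.support = Finset.univ := by
    refine Finset.eq_univ_iff_forall.2 fun x => mem_support.2 fun hx => h x ?_
    rw [hx, hx]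
  have hc : Nat.card X = σ.cycleType.sum := by
    rw [sum_cycleType, hs, Finset.card_univ, Nat.card_eq_fintype_card]
  rw [hc]
  refine Multiset.dvd_sum fun m hm => ?_
  have h1 : m ∣ 2 ^ N := (dvd_of_mem_cycleType hm).trans (orderOf_dvd_of_pow_eq_one hσ)
  have h2 : 2 ≤ m := two_le_of_mem_cycleType hm
  obtain ⟨k, -, rfl⟩ := (Nat.dvd_prime_pow Nat.prime_two).1 h1
  rcases k with _ | _ | k
  · simp at h2
  · exfalso
    obtain ⟨c, τ, hστ, hd, -, hcc⟩ := mem_cycleType_iff.1 hm
    rw [zero_add, pow_one, card_support_eq_two] at hcc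
    obtain ⟨x, y, hxy, rfl⟩ := hcc
    have e1 : τ x = x := (hd x).resolve_left (by rw [Equiv.swap_apply_left]; exact hxy.symm)
    have e2 : τ y = y := (hd y).resolve_left (by rw [Equiv.swap_apply_right]; exact hxy)
    apply h x
    rw [hστ, mul_apply, mul_apply, e1, Equiv.swap_apply_left, e2, Equiv.swap_apply_right]
  · exact ⟨2 ^ k, by ring⟩

end Pool.ENR
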